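import Pool.Agent.Q99.FAL.Stm2

/-! Fully augmented links (helper99), job REG: an encircled twist region in any position. -/

set_option autoImplicit false

namespace Pool.Agent.Q246.FAL

open Matrix Finset
open Pool.Agent.W715.VC (rt)
open Pool.Agent.W709.QAT (Piece run)
open Pool.Agent.Q191.TW (cs)
open Pool.Agent.Q191.LB (sg)
open Pool.Agent.Q191.FT (Tp toL Rep)
open Pool.Agent.Q191.SH (X2 e2 aw Rep_aw)
open Pool.Agent.Q99.FW (TZ Kg K2 Xm)
open Pool.Agent.Q99.FAL

variable {N : ℕ}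

theorem cs_add (r s : ℝ) : cs N (r + s) = cs N r * cs N s := by
  unfold cs
  rw [← Complex.exp_add]
  congr 1
  push_cast
  ring

theorem uu_append : ∀ (L S : List ℤ) (k : ℤ) (L' X : List (Fin N)), L'.length = L.length →
    uu N k (L ++ S) (L' ++ X) = uu N k L L' * uu N (k + L.length) S X
  | [], S, k, [], X, _ => by simp [uu]
  | [], S, k, x :: L', X, h => by simp at h
  | s :: L, S, k, [], X, h => by simp at h
  | s :: L, S, k, x :: L', X, h => by
    simp only [List.cons_append, uu]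
    rw [uu_append L S (k + 1) L' X (by simpa using h), mul_assoc]
    congr 3
    push_cast [List.length_cons]
    ring

/-- the position -/
theorem ph_pos (p i j : ℤ) (a b : ℤ) : ph N p i a * ph N (p + 1) j b =
    cs N (-(((N : ℝ) - 1) * p * (a + b))) * (ph N 0 i a * ph N 1 j b) := by
  unfold ph
  rw [← cs_add, ← cs_add, ← cs_add]
  congr 1
  push_cast
  ring

theorem Xm_wt (σ : Bool) (m : ℕ) (p q : Fin N × Fin N) (h : Xm N σ m p q ≠ 0) :
    (p.1 : ℕ) + (p.2 : ℕ) = (q.1 : ℕ) + (q.2 : ℕ) := by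
  unfold Xm at h
  rw [Pool.Agent.Q99.FW.X2_entry] at h
  simp only [Equiv.apply_symm_apply] at h
  by_contra h2
  rw [if_neg h2] at h
  exact h rfl

theorem run_aw (p : ℕ) (σ : Bool) (m : ℕ) (f : List (Fin N) → ℂ) (l : List (Fin N))
    (hl : l.length = p) (a b : Fin N) (r : List (Fin N)) :
    run N (rt N) (aw p σ m 1) f (l ++ a :: b :: r) =
      ∑ q : Fin N × Fin N, Xm N σ m (a, b) q * f (l ++ q.1 :: q.2 :: r) := by
  have h := Rep_aw (Pool.Agent.Q99.FW.rt0 N) (fun k h0 h => Pool.Agent.Q99.FW.brne h0 h) p σ m 1 l r hl f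
    ((e2 N).symm (a, b))
  have e : ∀ q : Fin N × Fin N, l ++ (toL 2 ((e2 N).symm q) ++ r) =
      l ++ q.1 :: q.2 :: r := fun q => rfl
  rw [e] at h
  rw [h, Pool.Agent.Q99.FW.sum_e2]
  rfl

theorem nu_add (s t : ℤ) : nu N (s + t) = nu N s * nu N t := by
  unfold nu
  rw [zpow_add₀]
  exact neg_ne_zero.2 (inv_ne_zero (Pool.Agent.Q99.FW.rt0 N))

theorem UU_two (L R : List ℤ) (i j : ℤ) (l r : List (Fin N)) (a b : Fin N)
    (hl : l.length = L.length) :
    UU N (L ++ i :: j :: R) (l ++ a :: b :: r) =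
      nu N (L.sum + R.sum) * (uu N 0 L l * uu N (L.length + 1 + 1) R r) *
        cs N (-(((N : ℝ) - 1) * L.length * ((a : ℕ) + (b : ℕ)))) *
          (nu N (i + j) * (ph N 0 i (a : ℕ) * ph N 1 j (b : ℕ))) := by
  unfold UU
  rw [uu_append _ _ _ _ _ hl]
  have h1 : uu N (0 + (L.length : ℤ)) (i :: j :: R) (a :: b :: r) =
      (ph N L.length i (a : ℕ) * ph N (L.length + 1) j (b : ℕ)) *
        uu N (L.length + 1 + 1) R r := by
    simp only [uu, zero_add]
    ring
  rw [h1, ph_pos]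
  have h2 : (L ++ i :: j :: R).sum = (L.sum + R.sum) + (i + j) := by
    simp only [List.sum_append, List.sum_cons]
    ring
  rw [h2, nu_add (L.sum + R.sum)]
  push_cast
  ring

theorem task_REG : S_REG := by
  intro hF1 N hN σ m p L R i j hL l hl
  obtain ⟨l', a, b, r, rfl, hl', hr⟩ : ∃ (l' : List (Fin N)) (a b : Fin N) (r : List (Fin N)),
      l = l' ++ a :: b :: r ∧ l'.length = L.length ∧ r.length = R.length := by
    simp only [List.length_append, List.length_cons] at hl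
    have h1 : (l.drop L.length).length = R.length + 1 + 1 := by
      rw [List.length_drop]; omega
    obtain ⟨a, r1, h2⟩ := List.exists_cons_of_length_eq_add_one h1
    rw [h2, List.length_cons] at h1
    obtain ⟨b, r, h3⟩ := List.exists_cons_of_length_eq_add_one (Nat.succ.inj h1)
    refine ⟨l.take L.length, a, b, r, ?_, ?_, ?_⟩
    · rw [← h3, ← h2, List.take_append_drop]
    · rw [List.length_take]; omega
    · rw [h3, List.length_cons] at h1; omega
  rw [run_aw p σ m _ l' (hl'.trans hL)]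
  simp only [UU_two _ _ _ _ _ _ _ _ hl']
  obtain ⟨A, hA⟩ : ∃ A, A = nu N (L.sum + R.sum) *
      (uu N 0 L l' * uu N (L.length + 1 + 1) R r) := ⟨_, rfl⟩
  rw [← hA]
  have h1 : ∀ q : Fin N × Fin N, Xm N σ m (a, b) q * (A *
      cs N (-(((N : ℝ) - 1) * L.length * ((q.1 : ℕ) + (q.2 : ℕ)))) *
        (nu N (i + j) * (ph N 0 i (q.1 : ℕ) * ph N 1 j (q.2 : ℕ)))) =
      (A * cs N (-(((N : ℝ) - 1) * L.length * ((a : ℕ) + (b : ℕ))))) *
        (Xm N σ m (a, b) q * (nu N (i + j) * (ph N 0 i (q.1 : ℕ) * ph N 1 j (q.2 : ℕ)))) := by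
    intro q
    by_cases h2 : Xm N σ m (a, b) q = 0
    · rw [h2]; ring
    · have h3 := Xm_wt σ m (a, b) q h2
      have h4 : ((a : ℕ) : ℝ) + ((b : ℕ) : ℝ) = (q.1 : ℕ) + (q.2 : ℕ) := by exact_mod_cast h3
      rw [h4]
      ring
  rw [Finset.sum_congr rfl fun q _ => h1 q, ← Finset.mul_sum, hF1 N hN σ m i j (a, b)]
  rw [mul_left_comm]
  congr 1
  rw [Finset.mul_sum]
  refine Finset.sum_congr rfl fun x _ => ?_
  split_ifs
  · ring
  · ring

end Pool.Agent.Q246.FAL
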